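import Pool.Agent.H93.GT.Targets
import Pool.Agent.H99.SC.FAM

/-! Module GFM of the board gdi_modules (MP_de9001_an): one family of stations. -/

set_option autoImplicit false

namespace Pool.Agent.H98.GT

open Pool.Agent.H93.GT Pool.Agent.H87.Synth Pool.Agent.H85.SC Finset
open Pool.Agent.H99.SC (lg_add lvl_add valid_add pr_lt_pr pr_odd)

/-- the periodic function of the family -/
noncomputable def XX (n k : ℕ) (z : ℤ) : ℂ :=
  ind (lr (if k = 0 then 1 else 3) n 4) z * (chi (n + k) 0 z : ℂ) *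
    (chi (n + k) 1 z : ℂ) * (chi (n + k) 2 z : ℂ)

theorem pr_three (m j : ℕ) : Nat.Coprime 3 (pr m j) := by
  have h2 : pr m j ≠ 3 := by
    have := pr_gt m j
    have h4 : 2 ^ 2 ≤ 2 ^ (m + 2 + j) := Nat.pow_le_pow_right (by norm_num) (by omega)
    omega
  rw [Nat.coprime_primes Nat.prime_three (pr_prime m j)]
  exact fun h => h2 h.symm

theorem pr_mod (n m j : ℕ) : Nat.Coprime (6 * Mo n) (pr m j) := by
  have h2 : Nat.Coprime 2 (pr m j) := Nat.Coprime.coprime_dvd_left (by norm_num) (pr_odd m j)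
  have h6 : Nat.Coprime (2 * 3) (pr m j) := Nat.Coprime.mul_left h2 (pr_three m j)
  exact Nat.Coprime.mul_left h6 ((pr_odd m j).pow_left _)

theorem lc_add {a k : ℕ} (hk : k < 2 ^ a) : lc (2 ^ a + k) = if k = 0 then 1 else 3 := by
  unfold lc
  rw [lg_add hk]
  by_cases h : k = 0
  · subst h; simp
  · rw [if_neg h, if_neg (by omega)]

theorem expn_XX (hEAP : T_EAP) (hECH : T_ECH) (hEML : T_EML) (n k : ℕ) :
    Expn (6 * Mo n * PP (n + k))
      (1 / (6 * Mo n) * (1 / Real.sqrt (pr (n + k) 0)) *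
        (1 / Real.sqrt (pr (n + k) 1)) * (1 / Real.sqrt (pr (n + k) 2))) (XX n k) := by
  obtain ⟨h01, h12⟩ := pr_lt_pr (n + k)
  have p0 := pr_prime (n + k) 0
  have p1 := pr_prime (n + k) 1
  have p2 := pr_prime (n + k) 2
  have hq : 0 < 6 * Mo n := by
    unfold Mo
    positivity
  have c0 : Nat.Coprime (6 * Mo n) (pr (n + k) 0) := pr_mod _ _ _
  have c1 : Nat.Coprime (6 * Mo n) (pr (n + k) 1) := pr_mod _ _ _
  have c2 : Nat.Coprime (6 * Mo n) (pr (n + k) 2) := pr_mod _ _ _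
  have d01 : Nat.Coprime (pr (n + k) 0) (pr (n + k) 1) := (Nat.coprime_primes p0 p1).2 h01.ne
  have d02 : Nat.Coprime (pr (n + k) 0) (pr (n + k) 2) :=
    (Nat.coprime_primes p0 p2).2 (h01.trans h12).ne
  have d12 : Nat.Coprime (pr (n + k) 1) (pr (n + k) 2) := (Nat.coprime_primes p1 p2).2 h12.ne
  -- the progression
  obtain ⟨c, hc⟩ : ∃ c : ℤ, lr (if k = 0 then 1 else 3) n 4 =
      fun z : ℤ => (((6 * Mo n : ℕ) : ℤ) ∣ z - c) := by
    refine ⟨cc n + (if k = 0 then 1 else 3) * 4 ^ Nat.size n + Mo n * 4, ?_⟩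
    funext z
    unfold lr
    rw [sub_sub, sub_sub, ← add_assoc]
    push_cast
    rfl
  have e0 := hEAP (6 * Mo n) c hq
  have e1 := hEML _ _ _ _ _ _ hq p0.pos c0 e0 (hECH (n + k) 0)
  have e2 := hEML _ _ _ _ _ _ (Nat.mul_pos hq p0.pos) p1.pos (Nat.Coprime.mul_left c1 d01) e1
    (hECH (n + k) 1)
  have e3 := hEML _ _ _ _ _ _ (Nat.mul_pos (Nat.mul_pos hq p0.pos) p1.pos) p2.pos
    (Nat.Coprime.mul_left (Nat.Coprime.mul_left c2 d02) d12) e2 (hECH (n + k) 2)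
  have hD : 6 * Mo n * PP (n + k) =
      6 * Mo n * pr (n + k) 0 * pr (n + k) 1 * pr (n + k) 2 := by
    unfold PP; ring
  have hX : XX n k = fun z => ind (fun z : ℤ => (((6 * Mo n : ℕ) : ℤ) ∣ z - c)) z *
      (chi (n + k) 0 z : ℂ) * (chi (n + k) 1 z : ℂ) * (chi (n + k) 2 z : ℂ) := by
    funext z
    unfold XX
    rw [hc]
  rw [hD, hX]
  have hcast : (1 : ℝ) / (6 * Mo n) = 1 / ((6 * Mo n : ℕ) : ℝ) := by push_cast; rfl
  rw [hcast]
  exact e3

theorem wx_eq {d : ℕ → ℝ} (P : Pos d) {a k n : ℕ} (hk : k < 2 ^ a) (z : ℤ) :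
    P.wx n (2 ^ a + k) z =
      -((2 : ℂ) ^ (n + k) / P.cnt n (2 ^ a + k)) * (-1) ^ a * XX n k z := by
  unfold Pos.wx XX
  rw [lg_add hk, lvl_add n hk, lc_add hk]

theorem numeric (m : ℕ) (p0 p1 p2 : ℕ) (h0 : 2 ^ (m + 2 + 0) < p0) (h1 : 2 ^ (m + 2 + 1) < p1)
    (h2 : 2 ^ (m + 2 + 2) < p2) :
    (324 : ℝ) * 2 ^ m ≤ 15 * (3 / 4) ^ m * (Real.sqrt p0 * Real.sqrt p1 * Real.sqrt p2) := by
  have h0' : (2 : ℝ) ^ (m + 2 + 0) ≤ p0 := by exact_mod_cast h0.le
  have h1' : (2 : ℝ) ^ (m + 2 + 1) ≤ p1 := by exact_mod_cast h1.le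
  have h2' : (2 : ℝ) ^ (m + 2 + 2) ≤ p2 := by exact_mod_cast h2.le
  rw [← Real.sqrt_mul (Nat.cast_nonneg _), ← Real.sqrt_mul (by positivity)]
  have hprod : (2 : ℝ) ^ (3 * m + 9) ≤ (p0 : ℝ) * p1 * p2 := by
    calc (2 : ℝ) ^ (3 * m + 9) = 2 ^ (m + 2 + 0) * 2 ^ (m + 2 + 1) * 2 ^ (m + 2 + 2) := by
          rw [← pow_add, ← pow_add]; congr 1; ring
      _ ≤ _ := by gcongr
  have hs : Real.sqrt ((2 : ℝ) ^ (3 * m + 9)) ≤ Real.sqrt ((p0 : ℝ) * p1 * p2) :=
    Real.sqrt_le_sqrt hprod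
  refine le_trans ?_ (mul_le_mul_of_nonneg_left hs (by positivity))
  have hsq : ((324 : ℝ) * 2 ^ m) ^ 2 ≤ (15 * (3 / 4) ^ m * Real.sqrt ((2 : ℝ) ^ (3 * m + 9))) ^ 2 := by
    have e : (15 * (3 / 4 : ℝ) ^ m * Real.sqrt ((2 : ℝ) ^ (3 * m + 9))) ^ 2 =
        115200 * (9 / 8) ^ m * 4 ^ m := by
      rw [mul_pow, Real.sq_sqrt (by positivity), pow_add, pow_mul, mul_pow, ← pow_mul,
        mul_comm m 2, pow_mul]
      have : (9 / 8 : ℝ) ^ m * 4 ^ m = ((3 / 4) ^ 2) ^ m * (2 ^ 3) ^ m := by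
        rw [← mul_pow, ← mul_pow]; norm_num
      rw [mul_assoc 115200, this]
      norm_num
      ring
    rw [e, mul_pow, ← pow_mul, mul_comm m 2, pow_mul]
    have h1 : (1 : ℝ) ≤ (9 / 8) ^ m := one_le_pow₀ (by norm_num)
    have h4 : (0 : ℝ) < 4 ^ m := by positivity
    norm_num
    nlinarith
  exact le_of_sq_le_sq hsq (by positivity)

theorem gfm (h1 : T_GFP) (h2 : T_EAP) (h3 : T_ECH) (h4 : T_EML) (h5 : T_GCN) (h6 : T_GSZ)
    (h7 : T_SLT) : T_GFM := by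
  classical
  intro d P n k M w hw
  obtain ⟨-, -, hXX, -, hDD, -⟩ := h6 d P
  obtain ⟨a0, ha0⟩ : ∃ a0 : ℕ, ∀ a, (n < 2 ^ a ∧ k < 2 ^ a) ↔ a0 ≤ a := by
    refine ⟨max (Nat.size n) (Nat.size k), fun a => ?_⟩
    rw [max_le_iff, Nat.size_le, Nat.size_le]
  let i : ℕ → ℕ := fun b => 2 ^ (a0 + b) + k
  have hnk : ∀ b, n < 2 ^ (a0 + b) ∧ k < 2 ^ (a0 + b) := fun b => (ha0 _).2 (Nat.le_add_right _ _)
  have hval : ∀ b, Valid n (i b) := fun b => valid_add (hnk b).2 (hnk b).1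
  have hi : ∀ b b', b < b' → i b < i b' := by
    intro b b' h
    have : 2 ^ (a0 + b) < 2 ^ (a0 + b') := Nat.pow_lt_pow_right (by norm_num) (by omega)
    simp only [i]; omega
  have hslot : ∀ b b', b < b' → slot n (i b) < slot n (i b') := fun b b' h =>
    h7.2.1 n _ n _ (hval b) (hval b') (hi b b' h)
  have hslotb : ∀ b, a0 + b < slot n (i b) := by
    intro b
    have h1 : a0 + b < 2 ^ (a0 + b) := Nat.lt_two_pow_self
    have h2 : 2 ^ (a0 + b) ≤ i b := by simp only [i]; omega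
    have h3 : i b ≤ i b ^ 2 := Nat.le_self_pow (by norm_num) _
    unfold slot
    omega
  -- the number of stations
  have hex : ∃ b, ¬ slot n (i b) < M := ⟨M, by have := hslotb M; omega⟩
  let L := Nat.find hex
  have hL : ∀ b, slot n (i b) < M ↔ b < L := by
    intro b
    constructor
    · intro h
      by_contra hb
      push Not at hb
      have h1 : ¬ slot n (i L) < M := Nat.find_spec hex
      rcases Nat.lt_or_eq_of_le hb with h2 | h2
      · exact h1 ((hslot _ _ h2).trans h)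
      · rw [← h2] at h; exact h1 h
    · intro h
      by_contra hb
      exact absurd (Nat.find_min' hex hb) (by omega)
  have hset : (range M).filter
      (fun a => n < 2 ^ a ∧ k < 2 ^ a ∧ slot n (2 ^ a + k) < M) =
      (range L).image (fun b => a0 + b) := by
    ext a
    rw [mem_filter, mem_range, mem_image]
    constructor
    · rintro ⟨_, h1, h2, h3⟩
      have h4 := (ha0 a).1 ⟨h1, h2⟩
      refine ⟨a - a0, ?_, by omega⟩
      rw [mem_range, ← hL]
      simp only [i]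
      rw [show a0 + (a - a0) = a by omega]
      exact h3
    · rintro ⟨b, hb, rfl⟩
      rw [mem_range, ← hL] at hb
      have := hslotb b
      exact ⟨by omega, (hnk b).1, (hnk b).2, hb⟩
  rw [hset, sum_image (fun b _ b' _ h => by simpa using h)]
  -- the constant
  let Γ : ℝ := (6 * Mo n * PP (n + k) : ℝ) /
      (((pr (n + k) 0 - 1) / 2 * ((pr (n + k) 1 - 1) / 2) * ((pr (n + k) 2 - 1) / 2) : ℕ) : ℝ)
  have hlvl : ∀ b, lvl n (i b) = n + k := fun b => lvl_add n (hnk b).2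
  have hΓ : ∀ b, (P.L (slot n (i b)) : ℝ) / P.cnt n (i b) = Γ := by
    intro b
    have := (h5 d P n (i b) (hval b)).2.2.1
    rw [hlvl b] at this
    exact this
  have hΓb : Γ ≤ 162 * Mo n := by
    have := (h5 d P n (i 0) (hval 0)).2.2.2
    rw [hΓ 0] at this
    exact this
  have hΓ0 : 0 ≤ Γ := by
    rw [← hΓ 0]; positivity
  have hterm : ∀ b, ∑ z ∈ Ico (P.X (slot n (2 ^ (a0 + b) + k)) : ℤ)
      (P.X (slot n (2 ^ (a0 + b) + k)) + P.L (slot n (2 ^ (a0 + b) + k))),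
      P.wx n (2 ^ (a0 + b) + k) z * w ^ z =
      (-(2 : ℂ) ^ (n + k) * Γ * (-1) ^ a0) *
        ((-1) ^ b * avg (P.X (slot n (i b))) (P.L (slot n (i b))) (XX n k) w) := by
    intro b
    have hN : (P.L (slot n (i b)) : ℂ) ≠ 0 := by
      exact_mod_cast (P.hL _).1.ne'
    have hcn : (P.cnt n (i b) : ℂ) ≠ 0 := by
      exact_mod_cast (h5 d P n (i b) (hval b)).1.ne'
    have hΓc : (Γ : ℂ) = (P.L (slot n (i b)) : ℂ) / P.cnt n (i b) := by
      rw [← hΓ b]; push_cast; rfl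
    unfold avg
    have hi' : 2 ^ (a0 + b) + k = i b := rfl
    rw [hΓc]
    have h1 : ∀ z, P.wx n (2 ^ (a0 + b) + k) z * w ^ z =
        (-((2 : ℂ) ^ (n + k) / P.cnt n (i b)) * (-1) ^ (a0 + b)) * (XX n k z * w ^ z) := by
      intro z
      rw [wx_eq P (hnk b).2 z]
      ring
    simp only [h1]
    rw [← mul_sum, hi']
    field_simp
    rw [pow_add]
    ring
  simp only [hterm]
  rw [← mul_sum, norm_mul]
  -- the bound for the alternating sum
  have hF := h1 _ _ _ (by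
      have h1 := (pr_prime (n + k) 0).pos
      have h2 := (pr_prime (n + k) 1).pos
      have h3 := (pr_prime (n + k) 2).pos
      unfold PP Mo
      positivity) (expn_XX h2 h3 h4 n k) (fun b => P.X (slot n (i b)))
      (fun b => P.L (slot n (i b)))
      (fun b => ⟨(P.hL _).1, (P.hL _).2, by
        have := (hXX _ _ (hslot b (b + 1) (Nat.lt_succ_self b))).2
        omega⟩) (by
        have := (hDD n (i 0) (hval 0)).2
        rw [hlvl 0] at this
        exact this) w hw L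
  have hnorm : ‖(-(2 : ℂ) ^ (n + k) * (Γ : ℂ) * (-1) ^ a0)‖ = 2 ^ (n + k) * Γ := by
    rw [norm_mul, norm_mul, norm_neg, norm_pow, norm_pow, norm_neg, norm_one, one_pow, mul_one,
      Complex.norm_real, Real.norm_eq_abs, abs_of_nonneg hΓ0]
    norm_num
  rw [hnorm]
  have hp0 : 0 < Real.sqrt (pr (n + k) 0) := Real.sqrt_pos.2 (by exact_mod_cast (pr_prime _ _).pos)
  have hp1 : 0 < Real.sqrt (pr (n + k) 1) := Real.sqrt_pos.2 (by exact_mod_cast (pr_prime _ _).pos)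
  have hp2 : 0 < Real.sqrt (pr (n + k) 2) := Real.sqrt_pos.2 (by exact_mod_cast (pr_prime _ _).pos)
  have hnum := numeric (n + k) _ _ _ (pr_gt (n + k) 0) (pr_gt (n + k) 1) (pr_gt (n + k) 2)
  refine (mul_le_mul_of_nonneg_left hF (by positivity)).trans ?_
  have h4 : (0 : ℝ) < Mo n := by
    have : 0 < Mo n := by unfold Mo; positivity
    exact_mod_cast this
  calc (2 : ℝ) ^ (n + k) * Γ * (12 * (1 / (6 * Mo n) * (1 / Real.sqrt (pr (n + k) 0)) *
        (1 / Real.sqrt (pr (n + k) 1)) * (1 / Real.sqrt (pr (n + k) 2))))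
      ≤ (2 : ℝ) ^ (n + k) * (162 * Mo n) *
        (12 * (1 / (6 * Mo n) * (1 / Real.sqrt (pr (n + k) 0)) *
        (1 / Real.sqrt (pr (n + k) 1)) * (1 / Real.sqrt (pr (n + k) 2)))) := by
        gcongr
    _ = 324 * 2 ^ (n + k) / (Real.sqrt (pr (n + k) 0) * Real.sqrt (pr (n + k) 1) *
        Real.sqrt (pr (n + k) 2)) := by
        field_simp
        ring
    _ ≤ 15 * (3 / 4) ^ (n + k) := by
        rw [div_le_iff₀ (by positivity)]
        exact hnum

end Pool.Agent.H98.GT
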